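import Pool.Agent.W2helper17.CG.Hil

/-!
# The cogenerator
-/

set_option autoImplicit false

open MeasureTheory Set Filter Topology
open scoped ENNReal InnerProductSpace

namespace Pool.Agent.W2helper17.CG

variable {μ : Measure ℝ} [IsProbabilityMeasure μ]

/-- `(1 + i x) = exp (2 i arctan x) (1 - i x)` -/
lemma cayley (x : ℝ) : ee (th x) * (1 - x * Complex.I) = 1 + x * Complex.I := by
  have h1 : ∀ y : ℝ, ee (Real.arctan y) * (Real.sqrt (1 + y ^ 2) : ℂ) = 1 + y * Complex.I := by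
    intro y
    unfold ee
    rw [Complex.exp_mul_I, ← Complex.ofReal_cos, ← Complex.ofReal_sin, Real.cos_arctan,
      Real.sin_arctan]
    have h2 : (Real.sqrt (1 + y ^ 2) : ℂ) ≠ 0 := by
      have : Real.sqrt (1 + y ^ 2) ≠ 0 := (Real.sqrt_pos.2 (by positivity)).ne'
      exact_mod_cast this
    push_cast
    field_simp
  have h2 := h1 x
  have h3 := h1 (-x)
  rw [Real.arctan_neg] at h3
  have h4 : (1 + (-x) ^ 2 : ℝ) = 1 + x ^ 2 := by ring
  rw [h4] at h3
  have h5 : ee (th x) = ee (Real.arctan x) * ee (Real.arctan x) := by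
    rw [← ee_add]; congr 1; unfold th; ring
  have h6 : ee (Real.arctan x) * ee (-Real.arctan x) = 1 := by rw [← ee_add]; simp [ee_zero]
  have h7 : (1 : ℂ) - x * Complex.I = ee (-Real.arctan x) * (Real.sqrt (1 + x ^ 2) : ℂ) := by
    rw [h3]; push_cast; ring
  rw [h7, h5, ← h2]
  linear_combination (ee (Real.arctan x) * (Real.sqrt (1 + x ^ 2) : ℂ)) * h6

lemma one_sub_ne (x : ℝ) : (1 : ℂ) - x * Complex.I ≠ 0 := by
  intro h
  have := congrArg Complex.re h
  simp at this

lemma integral_exp_ee (x : ℝ) : ∫ t in Ioi (0:ℝ), ((Real.exp (-t) : ℝ) : ℂ) * ee (t * x) =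
    1 / (1 - x * Complex.I) := by
  have h := integral_exp_mul_complex_Ioi (a := -(1 - x * Complex.I)) (by simp) 0
  have e : ∀ t : ℝ, ((Real.exp (-t) : ℝ) : ℂ) * ee (t * x) =
      Complex.exp (-(1 - x * Complex.I) * t) := by
    intro t
    unfold ee
    rw [Complex.ofReal_exp, ← Complex.exp_add]
    congr 1
    push_cast
    ring
  simp_rw [e]
  rw [h, Complex.ofReal_zero, mul_zero, Complex.exp_zero, neg_div_neg_eq]

/-- the symbol of the cogenerator -/
lemma symbol (x : ℝ) : 1 - 2 * (1 / (1 - x * Complex.I)) = -ee (th x) := by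
  have h := cayley x
  have h2 := one_sub_ne x
  field_simp
  linear_combination h

/-- multiplication by the symbol -/
noncomputable def VV (μ : Measure ℝ) [IsProbabilityMeasure μ] : Lp ℂ 2 μ →L[ℂ] Lp ℂ 2 μ :=
  mulOp (fun x => -ee (th x)) (continuous_ee.comp continuous_th).neg.aestronglyMeasurable
    (fun x => by rw [norm_neg]; exact (norm_ee _).le)

lemma coeFn_VV (g : Lp ℂ 2 μ) : (VV μ g : ℝ → ℂ) =ᵐ[μ] fun x => -ee (th x) * g x :=
  coeFn_mulOp _ _ _ _

lemma integrable_exp_UU (f : Lp ℂ 2 μ) :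
    IntegrableOn (fun t : ℝ => ((Real.exp (-t) : ℝ) : ℂ) • UU μ t f) (Ioi 0) := by
  have h1 : IntegrableOn (fun t : ℝ => Real.exp (-t) * ‖f‖) (Ioi 0) :=
    (integrableOn_exp_neg_Ioi 0).mul_const _
  refine Integrable.mono' h1 ?_ ?_
  · exact (Continuous.smul (Complex.continuous_ofReal.comp (Real.continuous_exp.comp continuous_neg))
      (continuous_UU f)).aestronglyMeasurable
  · refine ae_of_all _ fun t => ?_
    rw [norm_smul, Complex.norm_real, Real.norm_eq_abs, abs_of_pos (Real.exp_pos _)]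
    exact mul_le_mul_of_nonneg_left (norm_UU_le _ _) (Real.exp_pos _).le

lemma cog (f : Lp ℂ 2 μ) :
    f - (2 : ℂ) • ∫ t in Ioi (0:ℝ), ((Real.exp (-t) : ℝ) : ℂ) • UU μ t f = VV μ f := by
  apply ext_inner_left ℂ
  intro g
  rw [inner_sub_right, inner_smul_right, ← integral_inner (integrable_exp_UU f)]
  have hfg : Integrable (fun x => (starRingEnd ℂ) (g x) * f x) μ := by
    have := L2.integrable_inner (𝕜 := ℂ) g f
    refine this.congr (ae_of_all _ fun x => ?_)
    simp [RCLike.inner_apply, mul_comm]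
  have e1 : ∀ t : ℝ, ⟪g, ((Real.exp (-t) : ℝ) : ℂ) • UU μ t f⟫_ℂ =
      ∫ x, ((Real.exp (-t) : ℝ) : ℂ) * ee (t * x) * ((starRingEnd ℂ) (g x) * f x) ∂μ := by
    intro t
    rw [inner_smul_right]
    unfold UU
    rw [inner_mulOp, ← integral_const_mul]
    congr 1
    ext x
    ring
  simp_rw [e1]
  rw [integral_integral_swap]
  · have e2 : ∀ x : ℝ, ∫ t in Ioi (0:ℝ), ((Real.exp (-t) : ℝ) : ℂ) * ee (t * x) *
        ((starRingEnd ℂ) (g x) * f x) = 1 / (1 - x * Complex.I) * ((starRingEnd ℂ) (g x) * f x) := by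
      intro x
      rw [integral_mul_const, integral_exp_ee]
    simp_rw [e2]
    unfold VV
    rw [inner_mulOp]
    have e3 : ⟪g, f⟫_ℂ = ∫ x, (starRingEnd ℂ) (g x) * f x ∂μ := by
      rw [MeasureTheory.L2.inner_def]
      congr 1
      ext x
      simp [RCLike.inner_apply, mul_comm]
    rw [e3, ← integral_const_mul, ← integral_sub hfg]
    · congr 1
      ext x
      rw [← symbol x]
      ring
    · have hb : Integrable (fun x => (1 / (1 - x * Complex.I)) * ((starRingEnd ℂ) (g x) * f x)) μ := by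
        refine hfg.bdd_mul (c := 1) ?_ ?_
        · have : Continuous fun x : ℝ => 1 / (1 - (x : ℂ) * Complex.I) :=
            continuous_const.div (by fun_prop) one_sub_ne
          exact this.aestronglyMeasurable
        · refine ae_of_all _ fun x => ?_
          rw [norm_div, norm_one, div_le_one (norm_pos_iff.2 (one_sub_ne x))]
          have := Complex.abs_re_le_norm (1 - (x : ℂ) * Complex.I)
          simpa using this
      exact hb.const_mul 2
  · have h1 : Integrable (fun t : ℝ => Real.exp (-t)) (volume.restrict (Ioi (0:ℝ))) :=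
      integrableOn_exp_neg_Ioi 0
    have h2 : Integrable (fun z : ℝ × ℝ => Real.exp (-z.1) * ‖(starRingEnd ℂ) (g z.2) * f z.2‖)
        ((volume.restrict (Ioi (0:ℝ))).prod μ) := h1.mul_prod hfg.norm
    refine Integrable.mono' h2 ?_ ?_
    · apply AEStronglyMeasurable.mul
      · have : Continuous fun z : ℝ × ℝ => ((Real.exp (-z.1) : ℝ) : ℂ) * ee (z.1 * z.2) :=
          (Complex.continuous_ofReal.comp (Real.continuous_exp.comp continuous_fst.neg)).mul
            (continuous_ee.comp (continuous_fst.mul continuous_snd))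
        exact this.aestronglyMeasurable
      · exact hfg.aestronglyMeasurable.comp_snd
    · refine ae_of_all _ fun z => ?_
      simp only [Function.uncurry]
      rw [norm_mul, norm_mul, norm_ee, mul_one, Complex.norm_real, Real.norm_eq_abs,
        abs_of_pos (Real.exp_pos _)]

/-- the cogenerator on the cyclic space -/
lemma cog_MM (z : MM μ) :
    ((z - (2 : ℂ) • ∫ t in Ioi (0:ℝ), ((Real.exp (-t) : ℝ) : ℂ) • TT μ t z : MM μ) : Lp ℂ 2 μ) =
      VV μ z := by
  rw [← cog]
  have hint : IntegrableOn (fun t : ℝ => ((Real.exp (-t) : ℝ) : ℂ) • TT μ t z) (Ioi 0) := by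
    have h1 : IntegrableOn (fun t : ℝ => Real.exp (-t) * ‖z‖) (Ioi 0) :=
      (integrableOn_exp_neg_Ioi 0).mul_const _
    refine Integrable.mono' h1 ?_ ?_
    · exact (Continuous.smul (Complex.continuous_ofReal.comp (Real.continuous_exp.comp continuous_neg))
        (continuous_TT z)).aestronglyMeasurable
    · refine ae_of_all _ fun t => ?_
      rw [norm_smul, Complex.norm_real, Real.norm_eq_abs, abs_of_pos (Real.exp_pos _)]
      exact mul_le_mul_of_nonneg_left (norm_TT_apply_le _ _) (Real.exp_pos _).le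
  have h := (MM μ).subtypeL.integral_comp_comm hint
  rw [Submodule.coe_sub, Submodule.coe_smul]
  congr 2
  rw [show (((∫ t in Ioi (0:ℝ), ((Real.exp (-t) : ℝ) : ℂ) • TT μ t z : MM μ)) : Lp ℂ 2 μ) =
    (MM μ).subtypeL (∫ t in Ioi (0:ℝ), ((Real.exp (-t) : ℝ) : ℂ) • TT μ t z) from rfl, ← h]
  rfl

lemma iter_MM (n : ℕ) (z : MM μ) :
    ((((fun z : MM μ => z - (2 : ℂ) • ∫ t in Ioi (0:ℝ), ((Real.exp (-t) : ℝ) : ℂ) • TT μ t z)^[n] z) :
      MM μ) : Lp ℂ 2 μ) = (VV μ)^[n] z := by
  induction n with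
  | zero => rfl
  | succ n ih => rw [Function.iterate_succ_apply', Function.iterate_succ_apply', cog_MM, ih]

lemma iter_VV (n : ℕ) : ((VV μ)^[n] (vec μ 0) : ℝ → ℂ) =ᵐ[μ] fun x => (-1) ^ n * ee (n * th x) := by
  induction n with
  | zero =>
    filter_upwards [coeFn_vec (μ := μ) 0] with x h
    rw [Function.iterate_zero_apply, h]
    simp
  | succ n ih =>
    rw [Function.iterate_succ_apply']
    filter_upwards [ih, coeFn_VV ((VV μ)^[n] (vec μ 0))] with x h1 h2
    rw [h2, h1]
    push_cast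
    rw [add_mul, ee_add, one_mul, pow_succ]
    ring

lemma norm_inner_iter (n : ℕ) : ‖⟪(VV μ)^[n] (vec μ 0), vec μ 0⟫_ℂ‖ = ‖∫ x, ee (n * th x) ∂μ‖ := by
  have h1 : ⟪(VV μ)^[n] (vec μ 0), vec μ 0⟫_ℂ = (-1) ^ n * (starRingEnd ℂ) (∫ x, ee (n * th x) ∂μ) := by
    rw [MeasureTheory.L2.inner_def, ← integral_conj, ← integral_const_mul]
    apply integral_congr_ae
    filter_upwards [iter_VV (μ := μ) n, coeFn_vec (μ := μ) 0] with x h1 h2
    rw [h1, h2, RCLike.inner_apply, zero_mul, ee_zero, one_mul, map_mul, map_pow, map_neg, map_one]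
  rw [h1, norm_mul, norm_pow, norm_neg, norm_one, one_pow, one_mul, RCLike.norm_conj]

/-- The negative answer. -/
theorem main : ∃ (H : Type) (_ : NormedAddCommGroup H) (_ : InnerProductSpace ℂ H)
    (_ : CompleteSpace H) (T : ℝ → H →L[ℂ] H),
      T 0 = 1 ∧
      (∀ s t : ℝ, T (s + t) = T s * T t) ∧
      (∀ x : H, Continuous (fun t : ℝ => T t x)) ∧
      (∀ t : ℝ, ‖T t‖ ≤ 1) ∧
      (∀ x y : H, Tendsto (fun t : ℝ => inner ℂ (T t x) y) atTop (𝓝 0)) ∧
      ¬ (∀ x y : H, Tendsto (fun n : ℕ =>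
            inner ℂ ((fun z : H => z - (2 : ℂ) •
              ∫ t in Set.Ioi (0 : ℝ), ((Real.exp (-t) : ℝ) : ℂ) • T t z)^[n] x) y)
            atTop (𝓝 0)) := by
  obtain ⟨μ, hμ, -, h2, k, hk, hlow⟩ := exists_measure
  refine ⟨MM μ, inferInstance, inferInstance, inferInstance, TT μ, TT_zero, TT_add, continuous_TT,
    norm_TT, fun x y => ?_, fun hcon => ?_⟩
  · exact weak h2 x.2 y.2
  · have h3 := hcon ⟨vec μ 0, vec_mem 0⟩ ⟨vec μ 0, vec_mem 0⟩
    have h4 : Tendsto (fun n : ℕ => ‖∫ x, ee (n * th x) ∂μ‖) atTop (𝓝 0) := by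
      have h5 := h3.norm
      rw [norm_zero] at h5
      refine h5.congr fun n => ?_
      rw [← norm_inner_iter, Submodule.coe_inner]
      exact congrArg (fun v : Lp ℂ 2 μ => ‖⟪v, vec μ 0⟫_ℂ‖) (iter_MM n ⟨vec μ 0, vec_mem 0⟩)
    have hkt : Tendsto k atTop atTop := tendsto_atTop_mono hk tendsto_id
    have h6 := h4.comp hkt
    have h7 := ge_of_tendsto h6 (Filter.Eventually.of_forall fun n => hlow n)
    norm_num at h7

end Pool.Agent.W2helper17.CG
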