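import Pool.Agent.W2helper17.CG.Lim

/-!
# The Hilbert space
-/

set_option autoImplicit false

open MeasureTheory Set Filter Topology
open scoped ENNReal InnerProductSpace

namespace Pool.Agent.W2helper17.CG

section Mult

variable {X : Type*} [MeasurableSpace X] {μ : Measure X}

theorem memLp_mul (b : X → ℂ) (hb : AEStronglyMeasurable b μ) (hb1 : ∀ x, ‖b x‖ ≤ 1)
    (g : Lp ℂ 2 μ) : MemLp (fun x => b x * g x) 2 μ :=
  MemLp.of_le (Lp.memLp g) (hb.mul (Lp.aestronglyMeasurable g)) (ae_of_all _ fun x => by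
    rw [norm_mul]; exact mul_le_of_le_one_left (norm_nonneg _) (hb1 x))

/-- Multiplication by a bounded function, on `L²`. -/
noncomputable def mulOp (b : X → ℂ) (hb : AEStronglyMeasurable b μ) (hb1 : ∀ x, ‖b x‖ ≤ 1) :
    Lp ℂ 2 μ →L[ℂ] Lp ℂ 2 μ :=
  LinearMap.mkContinuous
    { toFun := fun g => MemLp.toLp (fun x => b x * g x) (memLp_mul b hb hb1 g)
      map_add' := by
        intro g h
        rw [← MemLp.toLp_add]
        apply MemLp.toLp_congr
        filter_upwards [Lp.coeFn_add g h] with x hx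
        rw [hx, Pi.add_apply, Pi.add_apply, mul_add]
      map_smul' := by
        intro c g
        rw [RingHom.id_apply, ← MemLp.toLp_const_smul]
        apply MemLp.toLp_congr
        filter_upwards [Lp.coeFn_smul c g] with x hx
        rw [hx, Pi.smul_apply, Pi.smul_apply, smul_eq_mul, smul_eq_mul]
        ring } 1 (by
      intro g
      rw [one_mul]
      change ‖MemLp.toLp (fun x => b x * g x) (memLp_mul b hb hb1 g)‖ ≤ ‖g‖
      apply Lp.norm_le_norm_of_ae_le
      filter_upwards [MemLp.coeFn_toLp (memLp_mul b hb hb1 g)] with x hx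
      rw [hx, norm_mul]
      exact mul_le_of_le_one_left (norm_nonneg _) (hb1 x))

theorem coeFn_mulOp (b : X → ℂ) (hb : AEStronglyMeasurable b μ) (hb1 : ∀ x, ‖b x‖ ≤ 1)
    (g : Lp ℂ 2 μ) : (mulOp b hb hb1 g : X → ℂ) =ᵐ[μ] fun x => b x * g x :=
  MemLp.coeFn_toLp (memLp_mul b hb hb1 g)

theorem norm_mulOp_le (b : X → ℂ) (hb : AEStronglyMeasurable b μ) (hb1 : ∀ x, ‖b x‖ ≤ 1)
    (g : Lp ℂ 2 μ) : ‖mulOp b hb hb1 g‖ ≤ ‖g‖ := by
  apply Lp.norm_le_norm_of_ae_le
  filter_upwards [coeFn_mulOp b hb hb1 g] with x hx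
  rw [hx, norm_mul]
  exact mul_le_of_le_one_left (norm_nonneg _) (hb1 x)

theorem inner_mulOp (b : X → ℂ) (hb : AEStronglyMeasurable b μ) (hb1 : ∀ x, ‖b x‖ ≤ 1)
    (g h : Lp ℂ 2 μ) :
    ⟪g, mulOp b hb hb1 h⟫_ℂ = ∫ x, (starRingEnd ℂ) (g x) * (b x * h x) ∂μ := by
  rw [MeasureTheory.L2.inner_def]
  apply integral_congr_ae
  filter_upwards [coeFn_mulOp b hb hb1 h] with x hx
  rw [hx]
  simp [mul_comm]

end Mult

variable {μ : Measure ℝ} [IsProbabilityMeasure μ]

lemma continuous_char (t : ℝ) : Continuous fun x : ℝ => ee (t * x) :=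
  continuous_ee.comp (continuous_const.mul continuous_id)

/-- the unitary group -/
noncomputable def UU (μ : Measure ℝ) [IsProbabilityMeasure μ] (t : ℝ) : Lp ℂ 2 μ →L[ℂ] Lp ℂ 2 μ :=
  mulOp (fun x => ee (t * x)) (continuous_char t).aestronglyMeasurable (fun _ => (norm_ee _).le)

theorem coeFn_UU (t : ℝ) (g : Lp ℂ 2 μ) : (UU μ t g : ℝ → ℂ) =ᵐ[μ] fun x => ee (t * x) * g x :=
  coeFn_mulOp _ _ _ _

theorem UU_zero (g : Lp ℂ 2 μ) : UU μ 0 g = g := by
  apply Lp.ext
  filter_upwards [coeFn_UU 0 g] with x h1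
  rw [h1, zero_mul, ee_zero, one_mul]

theorem UU_add (a b : ℝ) (g : Lp ℂ 2 μ) : UU μ (a + b) g = UU μ a (UU μ b g) := by
  apply Lp.ext
  filter_upwards [coeFn_UU (a + b) g, coeFn_UU a (UU μ b g), coeFn_UU b g] with x h1 h2 h3
  rw [h1, h2, h3, add_mul, ee_add, mul_assoc]

theorem norm_UU_le (a : ℝ) (g : Lp ℂ 2 μ) : ‖UU μ a g‖ ≤ ‖g‖ := norm_mulOp_le _ _ _ _

lemma memLp_char (s : ℝ) : MemLp (fun x : ℝ => ee (s * x)) 2 μ :=
  MemLp.of_bound (continuous_char s).aestronglyMeasurable 1 (ae_of_all _ fun _ => (norm_ee _).le)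

/-- the exponentials -/
noncomputable def vec (μ : Measure ℝ) [IsProbabilityMeasure μ] (s : ℝ) : Lp ℂ 2 μ :=
  MemLp.toLp _ (memLp_char s)

lemma coeFn_vec (s : ℝ) : (vec μ s : ℝ → ℂ) =ᵐ[μ] fun x => ee (s * x) := MemLp.coeFn_toLp _

lemma UU_vec (t s : ℝ) : UU μ t (vec μ s) = vec μ (t + s) := by
  apply Lp.ext
  filter_upwards [coeFn_UU t (vec μ s), coeFn_vec s, coeFn_vec (t + s)] with x h1 h2 h3
  rw [h1, h2, h3, add_mul, ee_add]

lemma inner_vec (s r : ℝ) : ⟪vec μ s, vec μ r⟫_ℂ = ∫ x, ee ((r - s) * x) ∂μ := by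
  rw [MeasureTheory.L2.inner_def]
  apply integral_congr_ae
  filter_upwards [coeFn_vec s, coeFn_vec r] with x h1 h2
  rw [h1, h2, RCLike.inner_apply, conj_ee, ← ee_add]
  congr 1; ring

/-- closed span of the exponentials -/
noncomputable def MM (μ : Measure ℝ) [IsProbabilityMeasure μ] : Submodule ℂ (Lp ℂ 2 μ) :=
  (Submodule.span ℂ (range (vec μ))).topologicalClosure

lemma isClosed_MM : IsClosed (MM μ : Set (Lp ℂ 2 μ)) := Submodule.isClosed_topologicalClosure _

instance : CompleteSpace (MM μ) := isClosed_MM.completeSpace_coe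

lemma vec_mem (s : ℝ) : vec μ s ∈ MM μ :=
  Submodule.le_topologicalClosure _ (Submodule.subset_span ⟨s, rfl⟩)

lemma MM_induction {S : Submodule ℂ (Lp ℂ 2 μ)} (hS : IsClosed (S : Set (Lp ℂ 2 μ)))
    (h : ∀ s, vec μ s ∈ S) : MM μ ≤ S :=
  Submodule.topologicalClosure_minimal _ (Submodule.span_le.2 (by rintro _ ⟨s, rfl⟩; exact h s)) hS

lemma UU_mem (t : ℝ) {x : Lp ℂ 2 μ} (hx : x ∈ MM μ) : UU μ t x ∈ MM μ := by
  have : MM μ ≤ (MM μ).comap (UU μ t : Lp ℂ 2 μ →ₗ[ℂ] Lp ℂ 2 μ) := by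
    apply MM_induction
    · exact isClosed_MM.preimage (UU μ t).continuous
    · intro s
      show UU μ t (vec μ s) ∈ MM μ
      rw [UU_vec]
      exact vec_mem _
  exact this hx

/-- the semigroup -/
noncomputable def TT (μ : Measure ℝ) [IsProbabilityMeasure μ] (t : ℝ) : MM μ →L[ℂ] MM μ :=
  ((UU μ t).comp (MM μ).subtypeL).codRestrict (MM μ) fun x => UU_mem t x.2

lemma coe_TT (t : ℝ) (x : MM μ) : ((TT μ t x : MM μ) : Lp ℂ 2 μ) = UU μ t x := rfl

lemma TT_zero : TT μ 0 = 1 := by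
  ext1 x
  apply Subtype.ext
  rw [coe_TT, UU_zero]
  rfl

lemma TT_add (s t : ℝ) : TT μ (s + t) = TT μ s * TT μ t := by
  ext1 x
  apply Subtype.ext
  rw [coe_TT, UU_add]
  rfl

lemma norm_TT_apply_le (t : ℝ) (x : MM μ) : ‖TT μ t x‖ ≤ ‖x‖ := norm_UU_le t (x : Lp ℂ 2 μ)

lemma norm_TT (t : ℝ) : ‖TT μ t‖ ≤ 1 :=
  ContinuousLinearMap.opNorm_le_bound _ zero_le_one fun x => by
    rw [one_mul]; exact norm_TT_apply_le t x

/-- strong continuity -/
lemma continuous_UU (f : Lp ℂ 2 μ) : Continuous fun t => UU μ t f := by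
  rw [continuous_iff_continuousAt]
  intro s
  have hf2 : Integrable (fun x => ‖f x‖ ^ 2) μ := (Lp.memLp f).integrable_norm_pow (by norm_num)
  have h1 : ∀ t, ‖UU μ t f - UU μ s f‖ ^ 2 = ∫ x, ‖ee (t * x) - ee (s * x)‖ ^ 2 * ‖f x‖ ^ 2 ∂μ := by
    intro t
    have h2 : (‖UU μ t f - UU μ s f‖ ^ 2 : ℝ) = (⟪UU μ t f - UU μ s f, UU μ t f - UU μ s f⟫_ℂ).re := by
      rw [inner_self_eq_norm_sq_to_K]
      norm_cast
    rw [h2, MeasureTheory.L2.inner_def]
    rw [← RCLike.re_eq_complex_re, ← integral_re (L2.integrable_inner _ _)]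
    apply integral_congr_ae
    filter_upwards [Lp.coeFn_sub (UU μ t f) (UU μ s f), coeFn_UU t f, coeFn_UU s f] with x h3 h4 h5
    rw [h3, Pi.sub_apply, h4, h5, ← sub_mul, inner_self_eq_norm_sq_to_K, norm_mul, ← mul_pow]
    norm_cast
  have h2 : Tendsto (fun t => ‖UU μ t f - UU μ s f‖ ^ 2) (𝓝 s) (𝓝 0) := by
    simp_rw [h1]
    have h3 : ∫ x, ‖ee (s * x) - ee (s * x)‖ ^ 2 * ‖f x‖ ^ 2 ∂μ = 0 := by simp
    rw [← h3]
    have : Continuous fun t : ℝ => ∫ x, ‖ee (t * x) - ee (s * x)‖ ^ 2 * ‖f x‖ ^ 2 ∂μ := by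
      apply continuous_of_dominated (bound := fun x => 4 * ‖f x‖ ^ 2)
      · intro t
        exact ((((continuous_char t).sub (continuous_char s)).norm.pow 2).aestronglyMeasurable).mul
          hf2.aestronglyMeasurable
      · intro t
        refine ae_of_all _ fun x => ?_
        rw [Real.norm_eq_abs, abs_of_nonneg (by positivity)]
        have h4 : ‖ee (t * x) - ee (s * x)‖ ≤ 2 := by
          refine (norm_sub_le _ _).trans ?_
          rw [norm_ee, norm_ee]; norm_num
        have h5 : ‖ee (t * x) - ee (s * x)‖ ^ 2 ≤ 4 := by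
          nlinarith [norm_nonneg (ee (t * x) - ee (s * x))]
        exact mul_le_mul_of_nonneg_right h5 (by positivity)
      · exact hf2.const_mul 4
      · refine ae_of_all _ fun x => ?_
        exact (((continuous_ee.comp (continuous_id.mul continuous_const)).sub continuous_const).norm.pow
          2).mul continuous_const
    exact this.tendsto s
  have h3 : Tendsto (fun t => ‖UU μ t f - UU μ s f‖) (𝓝 s) (𝓝 0) := by
    have := h2.sqrt
    simpa [Real.sqrt_sq] using this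
  exact tendsto_iff_norm_sub_tendsto_zero.2 h3

lemma continuous_TT (x : MM μ) : Continuous fun t => TT μ t x :=
  continuous_induced_rng.2 (continuous_UU (x : Lp ℂ 2 μ))

omit [IsProbabilityMeasure μ] in
/-- closedness of weak convergence to zero -/
lemma weak_closed {ι : Type*} {l : Filter ι} (B : ι → Lp ℂ 2 μ → ℂ) (C : ℝ)
    (hadd : ∀ i x y, B i (x + y) = B i x + B i y) (hb : ∀ i x, ‖B i x‖ ≤ C * ‖x‖) :
    IsClosed {x | Tendsto (fun i => B i x) l (𝓝 0)} := by
  have hC : 0 ≤ |C| + 1 := by positivity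
  refine isClosed_of_closure_subset fun x hx => ?_
  show Tendsto (fun i => B i x) l (𝓝 0)
  rw [Metric.tendsto_nhds]
  intro ε hε
  obtain ⟨y, hy, hxy⟩ := Metric.mem_closure_iff.1 hx (ε / (2 * (|C| + 1))) (by positivity)
  have hy' : Tendsto (fun i => B i y) l (𝓝 0) := hy
  filter_upwards [(Metric.tendsto_nhds.1 hy') (ε / 2) (by positivity)] with i hi
  rw [dist_zero_right] at hi ⊢
  have h1 : B i x = B i y + B i (x - y) := by rw [← hadd]; congr 1; abel
  rw [h1]
  have h2 : ‖B i (x - y)‖ ≤ ε / 2 := by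
    refine (hb i _).trans ?_
    rw [← dist_eq_norm]
    have h3 : C * dist x y ≤ (|C| + 1) * dist x y :=
      mul_le_mul_of_nonneg_right (by linarith [le_abs_self C]) dist_nonneg
    have h4 : (|C| + 1) * dist x y ≤ (|C| + 1) * (ε / (2 * (|C| + 1))) :=
      mul_le_mul_of_nonneg_left hxy.le hC
    have h5 : (|C| + 1) * (ε / (2 * (|C| + 1))) = ε / 2 := by field_simp
    linarith
  refine lt_of_le_of_lt (norm_add_le _ _) ?_
  linarith

lemma weak (h : Tendsto (fun t : ℝ => ∫ x, ee (t * x) ∂μ) atBot (𝓝 0)) {x y : Lp ℂ 2 μ}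
    (hx : x ∈ MM μ) (hy : y ∈ MM μ) : Tendsto (fun t => ⟪UU μ t x, y⟫_ℂ) atTop (𝓝 0) := by
  have hvv : ∀ s r, Tendsto (fun t => ⟪UU μ t (vec μ s), vec μ r⟫_ℂ) atTop (𝓝 0) := by
    intro s r
    have h1 : Tendsto (fun t : ℝ => r - (t + s)) atTop atBot := by
      have h2 : Tendsto (fun t : ℝ => -t + (r - s)) atTop atBot :=
        tendsto_atBot_add_const_right _ _ tendsto_neg_atTop_atBot
      refine h2.congr fun t => ?_
      ring
    refine (h.comp h1).congr fun t => ?_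
    rw [UU_vec, inner_vec]
    rfl
  have hvy : ∀ s, ∀ y ∈ MM μ, Tendsto (fun t => ⟪UU μ t (vec μ s), y⟫_ℂ) atTop (𝓝 0) := by
    intro s y hy
    let S : Submodule ℂ (Lp ℂ 2 μ) :=
      { carrier := {y | Tendsto (fun t => ⟪UU μ t (vec μ s), y⟫_ℂ) atTop (𝓝 0)}
        add_mem' := by
          intro a b ha hb
          have h1 : Tendsto _ _ _ := Tendsto.add ha hb
          rw [add_zero] at h1
          refine h1.congr fun t => ?_
          rw [inner_add_right]
        zero_mem' := by simp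
        smul_mem' := by
          intro c a ha
          have h1 : Tendsto _ _ _ := Tendsto.const_mul c ha
          rw [mul_zero] at h1
          refine h1.congr fun t => ?_
          rw [inner_smul_right] }
    have hS : IsClosed (S : Set (Lp ℂ 2 μ)) :=
      weak_closed (fun t y => ⟪UU μ t (vec μ s), y⟫_ℂ) ‖vec μ s‖ (fun t a b => inner_add_right _ _ _)
        (fun t a => (norm_inner_le_norm _ _).trans
          (mul_le_mul_of_nonneg_right (norm_UU_le _ _) (norm_nonneg _)))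
    exact MM_induction hS (hvv s) hy
  let S : Submodule ℂ (Lp ℂ 2 μ) :=
    { carrier := {x | Tendsto (fun t => ⟪UU μ t x, y⟫_ℂ) atTop (𝓝 0)}
      add_mem' := by
        intro a b ha hb
        have h1 : Tendsto _ _ _ := Tendsto.add ha hb
        rw [add_zero] at h1
        refine h1.congr fun t => ?_
        rw [map_add, inner_add_left]
      zero_mem' := by simp
      smul_mem' := by
        intro c a ha
        have h1 : Tendsto _ _ _ := Tendsto.const_mul ((starRingEnd ℂ) c) ha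
        rw [mul_zero] at h1
        refine h1.congr fun t => ?_
        rw [map_smul, inner_smul_left] }
  have hS : IsClosed (S : Set (Lp ℂ 2 μ)) :=
    weak_closed (fun t x => ⟪UU μ t x, y⟫_ℂ) ‖y‖ (fun t a b => by rw [map_add, inner_add_left])
      (fun t a => by
        refine (norm_inner_le_norm _ _).trans ?_
        rw [mul_comm]
        exact mul_le_mul_of_nonneg_left (norm_UU_le _ _) (norm_nonneg _))
  exact MM_induction hS (fun s => hvy s y hy) hx

end Pool.Agent.W2helper17.CG
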