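import Pool.Agent.W2helper17.CG.Riesz

/-!
# The limit measure
-/

set_option autoImplicit false

open MeasureTheory Set Filter Topology
open scoped ENNReal

namespace Pool.Agent.W2helper17.CG

lemma F_neg (n : ℕ) (t : ℝ) : F n (-t) = (starRingEnd ℂ) (F n t) := by
  unfold F
  rw [intervalIntegral.integral_of_le (by norm_num), intervalIntegral.integral_of_le (by norm_num),
    ← integral_conj]
  congr 1
  ext x
  rw [map_mul, conj_ee, Complex.conj_ofReal]
  congr 2
  ring

lemma F_tendsto (n : ℕ) : Tendsto (F n) atTop (𝓝 0) := by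
  have h := Real.tendsto_integral_exp_smul_cocompact
    (fun x : ℝ => (Ioc (1:ℝ) 2).indicator (fun x => (dens (LL n) x : ℂ)) x)
  have h2 : Tendsto (fun t : ℝ => -t / (2 * Real.pi)) atTop (cocompact ℝ) := by
    have h3 : Tendsto (fun t : ℝ => -t / (2 * Real.pi)) atTop atBot := by
      apply Tendsto.atBot_div_const (by positivity)
      exact tendsto_neg_atTop_atBot
    exact h3.mono_right atBot_le_cocompact
  have h3 := h.comp h2
  refine h3.congr fun t => ?_
  unfold F
  rw [intervalIntegral.integral_of_le (by norm_num), ← integral_indicator measurableSet_Ioc]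
  simp only [Function.comp]
  congr 1
  ext x
  by_cases hx : x ∈ Ioc (1:ℝ) 2
  · rw [indicator_of_mem hx, indicator_of_mem hx, Circle.smul_def, Real.fourierChar_apply, smul_eq_mul,
      mul_comm]
    congr 1
    unfold ee
    congr 1
    have : (Real.pi : ℂ) ≠ 0 := by exact_mod_cast Real.pi_ne_zero
    push_cast
    field_simp
  · rw [indicator_of_notMem hx, indicator_of_notMem hx, smul_zero]

/-- the measures with the Riesz products as densities -/
noncomputable def nuM (n : ℕ) : Measure ℝ :=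
  (volume.restrict (Ioc (1:ℝ) 2)).withDensity (fun x => ENNReal.ofReal (dens (LL n) x / Ms n))

lemma integral_nuM (n : ℕ) (f : ℝ → ℂ) :
    ∫ x, f x ∂(nuM n) = (Ms n : ℂ)⁻¹ * ∫ x in (1:ℝ)..2, (dens (LL n) x : ℂ) * f x := by
  have hM := (Ms_bound n).1
  unfold nuM
  have hmeas : Measurable fun x => ENNReal.ofReal (dens (LL n) x / Ms n) :=
    ((continuous_dens _).measurable.div_const _).ennreal_ofReal
  rw [integral_withDensity_eq_integral_toReal_smul hmeas
    (ae_of_all _ fun x => ENNReal.ofReal_lt_top),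
    intervalIntegral.integral_of_le (by norm_num), ← integral_const_mul]
  congr 1
  ext x
  rw [ENNReal.toReal_ofReal (div_nonneg (dens_nonneg _ _) (by linarith)), Complex.real_smul]
  push_cast
  have : (Ms n : ℂ) ≠ 0 := by
    have : Ms n ≠ 0 := by linarith
    exact_mod_cast this
  field_simp

instance prob_nuM (n : ℕ) : IsProbabilityMeasure (nuM n) := by
  have hM := (Ms_bound n).1
  constructor
  unfold nuM
  rw [withDensity_apply _ MeasurableSet.univ, Measure.restrict_univ,
    ← ofReal_integral_eq_lintegral_ofReal]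
  · rw [integral_div, ← intervalIntegral.integral_of_le (by norm_num)]
    have : ∫ x in (1:ℝ)..2, dens (LL n) x = Ms n := rfl
    rw [this, div_self (by linarith), ENNReal.ofReal_one]
  · have : IntervalIntegrable (fun x => dens (LL n) x / Ms n) volume 1 2 :=
      ((continuous_dens _).div_const _).intervalIntegrable _ _
    rwa [intervalIntegrable_iff_integrableOn_Ioc_of_le (by norm_num)] at this
  · exact ae_of_all _ fun x => div_nonneg (dens_nonneg _ _) (by linarith)

/-- the measures as probability measures -/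
noncomputable def nuP (n : ℕ) : ProbabilityMeasure ℝ := ⟨nuM n, prob_nuM n⟩

lemma nuM_compl (n : ℕ) : nuM n (Icc (1:ℝ) 2)ᶜ = 0 := by
  unfold nuM
  rw [withDensity_apply _ measurableSet_Icc.compl, Measure.restrict_restrict measurableSet_Icc.compl]
  have : (Icc (1:ℝ) 2)ᶜ ∩ Ioc 1 2 = ∅ := by
    ext x
    simp only [mem_inter_iff, mem_compl_iff, mem_Icc, mem_Ioc, mem_empty_iff_false, iff_false]
    rintro ⟨h1, h2⟩
    exact h1 ⟨h2.1.le, h2.2⟩
  rw [this]
  simp

lemma exists_limit : ∃ μ : ProbabilityMeasure ℝ,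
    Tendsto nuP (hyperfilter ℕ : Filter ℕ) (𝓝 μ) := by
  have hc : IsCompact {μ : ProbabilityMeasure ℝ | ∀ n : ℕ, μ (Icc (1:ℝ) 2)ᶜ ≤ (0 : NNReal)} :=
    isCompact_setOfPred_probabilityMeasure_mass_eq_compl_isCompact_le (u := fun _ => 0)
      (K := fun _ => Icc (1:ℝ) 2) tendsto_const_nhds (fun _ => isCompact_Icc) (Or.inl inferInstance)
  obtain ⟨μ, -, hμ⟩ := hc.ultrafilter_le_nhds ((hyperfilter ℕ).map nuP) (by
    rw [Ultrafilter.coe_map, le_principal_iff, mem_map]
    refine Filter.Eventually.of_forall fun n => ?_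
    intro _
    have := nuM_compl n
    show (nuP n) (Icc (1:ℝ) 2)ᶜ ≤ 0
    rw [nonpos_iff_eq_zero, ← ENNReal.coe_eq_zero, ProbabilityMeasure.ennreal_coeFn_eq_coeFn_toMeasure]
    exact this)
  exact ⟨μ, hμ⟩

/-- **The measure.** A probability measure on the line whose Fourier transform vanishes at infinity
and whose image under `x ↦ exp (2 i arctan x)` has Fourier coefficients which do not. -/
theorem exists_measure : ∃ μ : Measure ℝ, IsProbabilityMeasure μ ∧
    Tendsto (fun t : ℝ => ∫ x, ee (t * x) ∂μ) atTop (𝓝 0) ∧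
    Tendsto (fun t : ℝ => ∫ x, ee (t * x) ∂μ) atBot (𝓝 0) ∧
    ∃ k : ℕ → ℕ, (∀ n, n ≤ k n) ∧ ∀ n, 1 / 4 ≤ ‖∫ x, ee (k n * th x) ∂μ‖ := by
  obtain ⟨μ, hμ⟩ := exists_limit
  have hconv : ∀ f : ℝ → ℂ, Continuous f → (∀ x, ‖f x‖ ≤ 1) →
      Tendsto (fun n => ∫ x, f x ∂(nuM n)) (hyperfilter ℕ : Filter ℕ) (𝓝 (∫ x, f x ∂(μ : Measure ℝ))) := by
    intro f hf hb
    let fb : BoundedContinuousFunction ℝ ℂ := BoundedContinuousFunction.ofNormedAddCommGroup f hf 1 hb
    have := (ProbabilityMeasure.tendsto_iff_forall_integral_rclike_tendsto ℂ).1 hμ fb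
    exact this
  have hcof : (hyperfilter ℕ : Filter ℕ) ≤ atTop := by
    rw [← Nat.cofinite_eq_atTop]; exact hyperfilter_le_cofinite
  have hFt : ∀ t : ℝ, ∀ n k : ℕ, ‖∫ x, ee (t * x) ∂(nuM (n + k))‖ ≤ 2 * (‖F n t‖ + 2 * dl n) := by
    intro t n k
    rw [integral_nuM]
    have h1 : (∫ x in (1:ℝ)..2, (dens (LL (n + k)) x : ℂ) * ee (t * x)) = F (n + k) t := rfl
    have hM := (Ms_bound (n + k)).1
    rw [h1, norm_mul, norm_inv, Complex.norm_real, Real.norm_eq_abs, abs_of_pos (by linarith)]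
    have h2 := F_far n k t
    have h3 : ‖F (n + k) t‖ ≤ ‖F n t‖ + 2 * dl n := by
      calc ‖F (n + k) t‖ = ‖F n t + (F (n + k) t - F n t)‖ := by congr 1; ring
        _ ≤ _ := (norm_add_le _ _).trans (add_le_add le_rfl h2)
    have h4 : (Ms (n + k))⁻¹ ≤ 2 := by
      rw [inv_le_comm₀ (by linarith) (by norm_num)]; linarith
    calc _ ≤ 2 * ‖F (n + k) t‖ := mul_le_mul_of_nonneg_right h4 (norm_nonneg _)
      _ ≤ _ := by linarith
  have hee : ∀ t : ℝ, Continuous fun x : ℝ => ee (t * x) := fun t =>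
    continuous_ee.comp (continuous_const.mul continuous_id)
  have hbd : ∀ t : ℝ, ∀ n : ℕ, ‖∫ x, ee (t * x) ∂(μ : Measure ℝ)‖ ≤ 2 * (‖F n t‖ + 2 * dl n) := by
    intro t n
    have h1 := (hconv (fun x => ee (t * x)) (hee t) (fun x => (norm_ee _).le)).norm
    refine le_of_tendsto h1 ?_
    filter_upwards [hcof (eventually_ge_atTop n)] with N hN
    obtain ⟨k, rfl⟩ := Nat.exists_eq_add_of_le hN
    exact hFt t n k
  have hdl : Tendsto dl atTop (𝓝 0) := by
    have := (tendsto_pow_atTop_nhds_zero_of_lt_one (by norm_num : (0:ℝ) ≤ 1 / 2)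
      (by norm_num)).const_mul (1 / 16 : ℝ)
    rw [mul_zero] at this
    exact this
  have htop : Tendsto (fun t : ℝ => ∫ x, ee (t * x) ∂(μ : Measure ℝ)) atTop (𝓝 0) := by
    rw [Metric.tendsto_nhds]
    intro ε hε
    obtain ⟨n, hn⟩ := (hdl.eventually_lt_const (by positivity : (0:ℝ) < ε / 8)).exists
    filter_upwards [(Metric.tendsto_nhds.1 (F_tendsto n)) (ε / 8) (by positivity)] with t ht
    rw [dist_zero_right] at ht ⊢
    have := hbd t n
    linarith
  refine ⟨μ, inferInstance, htop, ?_, fun n => nxt (LL n), le_nxt, fun n => ?_⟩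
  · have h1 : ∀ t : ℝ, ∫ x, ee (t * x) ∂(μ : Measure ℝ) =
        (starRingEnd ℂ) (∫ x, ee (-t * x) ∂(μ : Measure ℝ)) := by
      intro t
      rw [← integral_conj]
      congr 1
      ext x
      rw [conj_ee]; congr 1; ring
    have h2 := (Complex.continuous_conj.tendsto (0:ℂ)).comp (htop.comp tendsto_neg_atBot_atTop)
    rw [map_zero] at h2
    exact h2.congr fun t => (h1 t).symm
  · have hc : Continuous fun x : ℝ => ee (nxt (LL n) * th x) :=
      continuous_ee.comp (continuous_const.mul continuous_th)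
    have h1 := (hconv (fun x => ee (nxt (LL n) * th x)) hc (fun x => (norm_ee _).le)).norm
    refine ge_of_tendsto h1 ?_
    filter_upwards [hcof (eventually_ge_atTop (n + 1))] with N hN
    rw [integral_nuM]
    have h2 : (∫ x in (1:ℝ)..2, (dens (LL N) x : ℂ) * ee (nxt (LL n) * th x)) = G N (nxt (LL n)) := rfl
    have hM := Ms_bound N
    rw [h2, norm_mul, norm_inv, Complex.norm_real, Real.norm_eq_abs, abs_of_pos (by linarith)]
    have h3 := G_lower n N hN
    have h4 : 8 / 9 ≤ (Ms N)⁻¹ := by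
      rw [le_inv_comm₀ (by norm_num) (by linarith)]; linarith
    calc (1 / 4 : ℝ) = 8 / 9 * (9 / 32) := by norm_num
      _ ≤ _ := mul_le_mul h4 h3 (by norm_num) (inv_nonneg.2 (by linarith))

end Pool.Agent.W2helper17.CG
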