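import Pool.Agent.H17Arc.Osc2

/-!
# Uniform oscillatory integral bound

`∫_1^2 exp (i (t x + 2 m arctan x)) p(x) dx` tends to zero as `m → ∞`, uniformly in the real `t`.
-/

set_option autoImplicit false

open MeasureTheory Set Filter Topology
open H17Arc

namespace Pool.Agent.W2helper17.CG

/-- Second derivative test without reference to a stationary point. -/
lemma second {φ v w : ℝ → ℝ} (hφ : ∀ t, HasDerivAt φ (v t) t)
    (hv : ∀ t, HasDerivAt v (w t) t) (hw : Continuous w) {a b y c ρ : ℝ}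
    (hay : a ≤ y) (hyb : y ≤ b) (hc : 0 < c) (hρ : 0 < ρ)
    (hwc : ∀ t ∈ Icc a b, c ≤ w t) :
    ‖W φ 0 a y‖ ≤ 6 / (c * ρ) + 2 * ρ := by
  have hab : a ≤ b := hay.trans hyb
  have hφc : Continuous φ := continuous_iff_continuousAt.mpr fun t => (hφ t).continuousAt
  have hvc : Continuous v := continuous_iff_continuousAt.mpr fun t => (hv t).continuousAt
  obtain ⟨t0, ht0, hR, hL⟩ : ∃ t0 ∈ Icc a b, (∀ s ∈ Icc a b, t0 < s → c * (s - t0) ≤ v s) ∧
      (∀ s ∈ Icc a b, s < t0 → v s ≤ -(c * (t0 - s))) := by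
    rcases le_or_gt 0 (v a) with h | h
    · refine ⟨a, ⟨le_refl _, hab⟩, fun s hs hs' => ?_, fun s hs hs' => absurd hs' (not_lt.2 hs.1)⟩
      have := v_lower hv hwc (s := a) (t := s) ⟨le_refl _, hab⟩ hs hs'.le
      linarith
    · rcases le_or_gt (v b) 0 with h' | h'
      · refine ⟨b, ⟨hab, le_refl _⟩, fun s hs hs' => absurd hs' (not_lt.2 hs.2), fun s hs hs' => ?_⟩
        have := v_lower hv hwc (s := s) (t := b) hs ⟨hab, le_refl _⟩ hs'.le
        linarith
      · obtain ⟨t0, ht0, hv0⟩ := intermediate_value_Icc hab hvc.continuousOn ⟨h.le, h'.le⟩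
        refine ⟨t0, ht0, fun s hs hs' => ?_, fun s hs hs' => ?_⟩
        · have := v_lower hv hwc (s := t0) (t := s) ht0 hs hs'.le
          linarith
        · have := v_lower hv hwc (s := s) (t := t0) hs ht0 hs'.le
          linarith
  set m1 := max a (min y (t0 - ρ)) with hm1
  set m2 := max a (min y (t0 + ρ)) with hm2
  have hxm1 : a ≤ m1 := le_max_left _ _
  have hm2y : m2 ≤ y := max_le hay (min_le_left _ _)
  have hm12 : m1 ≤ m2 := by
    apply max_le_max (le_refl _)
    apply min_le_min (le_refl _)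
    linarith
  have hlen : m2 - m1 ≤ 2 * ρ := by
    simp only [hm1, hm2, max_def, min_def]
    split_ifs <;> linarith
  have hcρ : 0 < c * ρ := by positivity
  have hleft : ‖W φ 0 a m1‖ ≤ 3 / (c * ρ) := by
    rcases le_or_gt (t0 - ρ) a with h | h
    · have : m1 = a := by
        simp only [hm1, max_def, min_def]
        split_ifs <;> linarith
      rw [this, W_self, norm_zero]
      positivity
    · have hm1' : m1 ≤ t0 - ρ := by
        simp only [hm1, max_def, min_def]
        split_ifs <;> linarith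
      apply norm_W_le_first hφ hv hw hxm1 le_rfl hcρ
      · intro t ht
        have := hwc t ⟨ht.1, by linarith [ht.2]⟩
        linarith
      · right
        intro t ht
        have := hL t ⟨ht.1, by linarith [ht.2]⟩ (by linarith [ht.2])
        have h2 : c * ρ ≤ c * (t0 - t) := by
          apply mul_le_mul_of_nonneg_left _ hc.le
          linarith [ht.2]
        linarith
  have hmid : ‖W φ 0 m1 m2‖ ≤ 2 * ρ := (norm_W_le_len le_rfl hm12).trans hlen
  have hright : ‖W φ 0 m2 y‖ ≤ 3 / (c * ρ) := by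
    rcases le_or_gt y (t0 + ρ) with h | h
    · have : m2 = y := by
        simp only [hm2, max_def, min_def]
        split_ifs <;> linarith
      rw [this, W_self, norm_zero]
      positivity
    · have hm2' : t0 + ρ ≤ m2 := by
        simp only [hm2, max_def, min_def]
        split_ifs <;> linarith
      apply norm_W_le_first hφ hv hw hm2y le_rfl hcρ
      · intro t ht
        have := hwc t ⟨by linarith [ht.1], by linarith [ht.2]⟩
        linarith
      · left
        intro t ht
        have := hR t ⟨by linarith [ht.1], by linarith [ht.2]⟩ (by linarith [ht.1])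
        have h2 : c * ρ ≤ c * (t - t0) := by
          apply mul_le_mul_of_nonneg_left _ hc.le
          linarith [ht.1]
        linarith
  rw [W_split hφc 0 a m1 y, W_split hφc 0 m1 m2 y]
  simp only [zero_mul, neg_zero, Real.exp_zero, Complex.ofReal_one, one_mul]
  refine (norm_add_le _ _).trans ?_
  have h3 : (6 : ℝ) / (c * ρ) = 3 / (c * ρ) + 3 / (c * ρ) := by ring
  have h4 := norm_add_le (W φ 0 m1 m2) (W φ 0 m2 y)
  linarith

/-- With a `C¹` amplitude. -/
lemma second_amp {φ v w : ℝ → ℝ} (hφ : ∀ t, HasDerivAt φ (v t) t)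
    (hv : ∀ t, HasDerivAt v (w t) t) (hw : Continuous w) {a b c ρ : ℝ}
    (hab : a ≤ b) (hc : 0 < c) (hρ : 0 < ρ)
    (hwc : ∀ t ∈ Icc a b, c ≤ w t) {p p' : ℝ → ℂ} (hp : ∀ t, HasDerivAt p (p' t) t)
    (hp' : Continuous p') :
    ‖∫ t in a..b, p t * Complex.exp ((-φ t : ℝ) * Complex.I)‖ ≤
      (‖p b‖ + ∫ t in a..b, ‖p' t‖) * (6 / (c * ρ) + 2 * ρ) := by
  have hφc : Continuous φ := continuous_iff_continuousAt.mpr fun t => (hφ t).continuousAt
  set K : ℝ := 6 / (c * ρ) + 2 * ρ with hK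
  have hk : ∀ t, Complex.exp ((-φ t : ℝ) * Complex.I) = H17Arc.ker φ 0 a t := by
    intro t; unfold H17Arc.ker; simp
  have hWd : ∀ t, HasDerivAt (fun y => W φ 0 a y) (H17Arc.ker φ 0 a t) t := by
    intro t
    exact intervalIntegral.integral_hasDerivAt_right ((continuous_ker hφc 0 a).intervalIntegrable _ _)
      ((continuous_ker hφc 0 a).stronglyMeasurableAtFilter _ _) (continuous_ker hφc 0 a).continuousAt
  have hWc : Continuous fun y => W φ 0 a y :=
    continuous_iff_continuousAt.mpr fun t => (hWd t).continuousAt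
  simp_rw [hk]
  rw [intervalIntegral.integral_mul_deriv_eq_deriv_mul (fun t _ => hp t) (fun t _ => hWd t)
    (hp'.intervalIntegrable _ _) ((continuous_ker hφc 0 a).intervalIntegrable _ _)]
  rw [W_self, mul_zero, sub_zero]
  have hbd : ∀ y ∈ Icc a b, ‖W φ 0 a y‖ ≤ K := fun y hy =>
    second hφ hv hw hy.1 hy.2 hc hρ hwc
  have h1 : ‖∫ t in a..b, p' t * W φ 0 a t‖ ≤ (∫ t in a..b, ‖p' t‖) * K := by
    rw [← intervalIntegral.integral_mul_const]
    apply intervalIntegral.norm_integral_le_of_norm_le hab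
    · refine Filter.Eventually.of_forall fun t ht => ?_
      rw [norm_mul]
      exact mul_le_mul_of_nonneg_left (hbd t ⟨ht.1.le, ht.2⟩) (norm_nonneg _)
    · exact ((hp'.norm).mul continuous_const).intervalIntegrable _ _
  refine (norm_sub_le _ _).trans ?_
  rw [norm_mul, add_mul]
  exact add_le_add (mul_le_mul_of_nonneg_left (hbd b ⟨hab, le_rfl⟩) (norm_nonneg _)) h1

/-- The phase `- t x - 2 m arctan x`. -/
lemma osc_unif {p p' : ℝ → ℂ} (hp : ∀ t, HasDerivAt p (p' t) t) (hp' : Continuous p') :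
    ∀ ε : ℝ, 0 < ε → ∃ M : ℕ, ∀ m : ℕ, M ≤ m → ∀ t : ℝ,
      ‖∫ x in (1:ℝ)..2, p x * Complex.exp ((t * x + 2 * m * Real.arctan x : ℝ) * Complex.I)‖ ≤ ε := by
  intro ε hε
  set A : ℝ := ‖p 2‖ + ∫ t in (1:ℝ)..2, ‖p' t‖ with hA
  have hA0 : 0 ≤ A := by
    have : 0 ≤ ∫ t in (1:ℝ)..2, ‖p' t‖ :=
      intervalIntegral.integral_nonneg (by norm_num) fun t _ => norm_nonneg _
    positivity
  -- bound for each `m ≥ 1`
  have key : ∀ m : ℕ, 1 ≤ m → ∀ t : ℝ, ∀ ρ : ℝ, 0 < ρ →
      ‖∫ x in (1:ℝ)..2, p x * Complex.exp ((t * x + 2 * m * Real.arctan x : ℝ) * Complex.I)‖ ≤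
        A * (6 / ((m * (8 / 25)) * ρ) + 2 * ρ) := by
    intro m hm t ρ hρ
    have hm' : (1:ℝ) ≤ m := by exact_mod_cast hm
    set φ : ℝ → ℝ := fun x => -(t * x + 2 * m * Real.arctan x) with hφ
    set v : ℝ → ℝ := fun x => -(t + 2 * m * (1 / (1 + x ^ 2))) with hv
    set w : ℝ → ℝ := fun x => m * (4 * x / (1 + x ^ 2) ^ 2) with hw
    have hφd : ∀ x, HasDerivAt φ (v x) x := by
      intro x
      have h1 := (((hasDerivAt_id x).const_mul t).add
        ((Real.hasDerivAt_arctan x).const_mul (2 * (m:ℝ)))).neg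
      refine h1.congr_deriv ?_
      simp [hv]
    have hne : ∀ x : ℝ, (1 + x ^ 2) ≠ 0 := fun x => by positivity
    have hvd : ∀ x, HasDerivAt v (w x) x := by
      intro x
      have h1 : HasDerivAt (fun x : ℝ => 1 + x ^ 2) (2 * x) x := by
        simpa using (hasDerivAt_pow 2 x).const_add 1
      have h2 := (((h1.inv (hne x)).const_mul (2 * (m:ℝ))).const_add t).neg
      refine (h2.congr_of_eventuallyEq ?_).congr_deriv ?_
      · refine Filter.Eventually.of_forall fun y => ?_
        simp [hv]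
      · simp only [hw]
        field_simp
        ring
    have hwc : Continuous w := by
      simp only [hw]
      refine continuous_const.mul (Continuous.div (by fun_prop) (by fun_prop) fun x => ?_)
      exact pow_ne_zero _ (hne x)
    have hlow : ∀ x ∈ Icc (1:ℝ) 2, m * (8 / 25) ≤ w x := by
      intro x hx
      simp only [hw]
      apply mul_le_mul_of_nonneg_left _ (by positivity)
      rw [div_le_div_iff₀ (by norm_num) (by positivity)]
      have h1 := hx.1
      have h2 := hx.2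
      nlinarith [mul_nonneg (sub_nonneg.2 h1) (sub_nonneg.2 h2), mul_nonneg (mul_nonneg (sub_nonneg.2 h1) (sub_nonneg.2 h2)) (by linarith : (0:ℝ) ≤ x), mul_nonneg (mul_nonneg (sub_nonneg.2 h1) (sub_nonneg.2 h2)) (sq_nonneg x)]
    have := second_amp hφd hvd hwc (by norm_num : (1:ℝ) ≤ 2) (by positivity : (0:ℝ) < m * (8/25)) hρ
      hlow hp hp'
    have he : ∀ x, -φ x = t * x + 2 * m * Real.arctan x := fun x => by simp [hφ]
    simp_rw [he] at this
    exact this
  -- choose `ρ` then `m`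
  obtain ⟨ρ, hρ, hρ2⟩ : ∃ ρ : ℝ, 0 < ρ ∧ A * (2 * ρ) ≤ ε / 2 := by
    refine ⟨ε / (4 * (A + 1)), by positivity, ?_⟩
    have : A * (2 * (ε / (4 * (A + 1)))) = (A / (A + 1)) * (ε / 2) := by
      field_simp; ring
    rw [this]
    have h1 : A / (A + 1) ≤ 1 := by rw [div_le_one (by positivity)]; linarith
    nlinarith
  obtain ⟨M, hM⟩ := exists_nat_gt (A * 6 * 25 / (8 * ρ) / (ε / 2))
  refine ⟨M + 1, fun m hm t => ?_⟩
  have hm1 : 1 ≤ m := by omega
  refine (key m hm1 t ρ hρ).trans ?_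
  have hmM : (M : ℝ) ≤ m := by exact_mod_cast (by omega : M ≤ m)
  have hmpos : (0:ℝ) < m := by exact_mod_cast hm1
  have h1 : A * 6 * 25 / (8 * ρ) / (ε / 2) < m := lt_of_lt_of_le hM hmM
  rw [div_lt_iff₀ (by positivity)] at h1
  have h2 : A * (6 / ((m * (8 / 25)) * ρ)) = (A * 6 * 25 / (8 * ρ)) / m := by
    field_simp
  rw [mul_add, h2]
  have h3 : (A * 6 * 25 / (8 * ρ)) / m ≤ ε / 2 := by
    rw [div_le_iff₀ hmpos]; linarith
  linarith

end Pool.Agent.W2helper17.CG
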