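import Pool.Agent.W2helper17.CG.Osc

/-!
# Riesz products in the variable `2 arctan x` on `[1, 2]`
-/

set_option autoImplicit false

open MeasureTheory Set Filter Topology

namespace Pool.Agent.W2helper17.CG

/-- `exp (i s)` -/
noncomputable def ee (s : ℝ) : ℂ := Complex.exp (s * Complex.I)

lemma ee_add (a b : ℝ) : ee (a + b) = ee a * ee b := by
  unfold ee; rw [← Complex.exp_add]; push_cast; ring_nf

lemma ee_zero : ee 0 = 1 := by simp [ee]

lemma norm_ee (a : ℝ) : ‖ee a‖ = 1 := Complex.norm_exp_ofReal_mul_I a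

lemma conj_ee (a : ℝ) : (starRingEnd ℂ) (ee a) = ee (-a) := by
  unfold ee; rw [← Complex.exp_conj]; simp

lemma cos_ee (a : ℝ) : ((Real.cos a : ℝ) : ℂ) = (ee a + ee (-a)) / 2 := by
  unfold ee
  rw [Complex.ofReal_cos, Complex.cos]
  push_cast
  rfl

lemma contDiff_ee {f : ℝ → ℝ} (hf : ContDiff ℝ 1 f) : ContDiff ℝ 1 fun x => ee (f x) := by
  unfold ee
  exact ((Complex.ofRealCLM.contDiff.comp hf).mul contDiff_const).cexp

lemma continuous_ee : Continuous ee := by unfold ee; fun_prop

/-- the phase -/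
noncomputable def th (x : ℝ) : ℝ := 2 * Real.arctan x

lemma contDiff_th : ContDiff ℝ 1 th := contDiff_const.mul Real.contDiff_arctan

lemma continuous_th : Continuous th := contDiff_th.continuous

/-- the Riesz product with the frequencies `l` -/
noncomputable def dens (l : List ℕ) (x : ℝ) : ℝ := (l.map fun m : ℕ => 1 + Real.cos (m * th x)).prod

lemma dens_nil (x : ℝ) : dens [] x = 1 := by simp [dens]

lemma dens_cons (m : ℕ) (l : List ℕ) (x : ℝ) :
    dens (m :: l) x = (1 + Real.cos (m * th x)) * dens l x := by simp [dens]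

lemma dens_nonneg (l : List ℕ) (x : ℝ) : 0 ≤ dens l x := by
  induction l with
  | nil => simp [dens_nil]
  | cons m l ih =>
    rw [dens_cons]
    exact mul_nonneg (by linarith [Real.neg_one_le_cos (m * th x)]) ih

lemma contDiff_dens (l : List ℕ) : ContDiff ℝ 1 (dens l) := by
  induction l with
  | nil =>
    have : dens [] = fun _ => 1 := by ext x; exact dens_nil x
    rw [this]; exact contDiff_const
  | cons m l ih =>
    have : dens (m :: l) = fun x => (1 + Real.cos (m * th x)) * dens l x := by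
      ext x; exact dens_cons m l x
    rw [this]
    exact (contDiff_const.add (Real.contDiff_cos.comp (contDiff_const.mul contDiff_th))).mul ih

lemma continuous_dens (l : List ℕ) : Continuous (dens l) := (contDiff_dens l).continuous

lemma contDiff_densC (l : List ℕ) : ContDiff ℝ 1 fun x => ((dens l x : ℝ) : ℂ) :=
  Complex.ofRealCLM.contDiff.comp (contDiff_dens l)

lemma continuous_densC (l : List ℕ) : Continuous fun x => ((dens l x : ℝ) : ℂ) :=
  (contDiff_densC l).continuous

/-- uniform oscillation, positive frequency -/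
lemma osc_pos {p : ℝ → ℂ} (hp : ContDiff ℝ 1 p) {ε : ℝ} (hε : 0 < ε) :
    ∀ᶠ m : ℕ in atTop, ∀ t : ℝ, ‖∫ x in (1:ℝ)..2, p x * ee (t * x + m * th x)‖ ≤ ε := by
  have h1 : ∀ t, HasDerivAt p (deriv p t) t := fun t =>
    ((hp.differentiable (by norm_num)) t).hasDerivAt
  have h2 : Continuous (deriv p) := (contDiff_one_iff_deriv.1 hp).2
  obtain ⟨M, hM⟩ := osc_unif h1 h2 ε hε
  filter_upwards [eventually_ge_atTop M] with m hm t
  have := hM m hm t
  have he : ∀ x : ℝ, ee (t * x + m * th x) =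
      Complex.exp ((t * x + 2 * m * Real.arctan x : ℝ) * Complex.I) := by
    intro x; unfold ee th
    rw [show t * x + (m : ℝ) * (2 * Real.arctan x) = t * x + 2 * m * Real.arctan x by ring]
  simp_rw [he]
  exact this

lemma osc_neg {p : ℝ → ℂ} (hp : ContDiff ℝ 1 p) {ε : ℝ} (hε : 0 < ε) :
    ∀ᶠ m : ℕ in atTop, ∀ t : ℝ, ‖∫ x in (1:ℝ)..2, p x * ee (t * x - m * th x)‖ ≤ ε := by
  have hp' : ContDiff ℝ 1 fun x => (starRingEnd ℂ) (p x) :=
    (Complex.conjCLE.contDiff).comp hp
  filter_upwards [osc_pos hp' hε] with m hm t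
  have h := hm (-t)
  have e : (∫ x in (1:ℝ)..2, p x * ee (t * x - m * th x)) =
      (starRingEnd ℂ) (∫ x in (1:ℝ)..2, (starRingEnd ℂ) (p x) * ee (-t * x + m * th x)) := by
    rw [intervalIntegral.integral_of_le (by norm_num), intervalIntegral.integral_of_le (by norm_num),
      ← integral_conj]
    congr 1
    ext x
    rw [map_mul, conj_ee, Complex.conj_conj]
    congr 2
    ring_nf
  rw [e]
  exact (Complex.norm_conj _).le.trans h

lemma osc_cos {p : ℝ → ℂ} (hp : ContDiff ℝ 1 p) {ε : ℝ} (hε : 0 < ε) :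
    ∀ᶠ m : ℕ in atTop, ∀ t : ℝ,
      ‖∫ x in (1:ℝ)..2, p x * ((Real.cos (m * th x) : ℝ) : ℂ) * ee (t * x)‖ ≤ ε := by
  filter_upwards [osc_pos hp hε, osc_neg hp hε] with m h1 h2 t
  have hpc := hp.continuous
  have e1 : ∀ x : ℝ, p x * ((Real.cos (m * th x) : ℝ) : ℂ) * ee (t * x) =
      (1 / 2 : ℂ) * (p x * ee (t * x + m * th x)) + (1 / 2 : ℂ) * (p x * ee (t * x - m * th x)) := by
    intro x
    rw [cos_ee, ee_add, sub_eq_add_neg, ee_add]
    ring
  simp_rw [e1]
  have c1 : Continuous fun x => (1 / 2 : ℂ) * (p x * ee (t * x + m * th x)) :=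
    continuous_const.mul (hpc.mul (continuous_ee.comp
      ((continuous_const.mul continuous_id).add (continuous_const.mul continuous_th))))
  have c2 : Continuous fun x => (1 / 2 : ℂ) * (p x * ee (t * x - m * th x)) :=
    continuous_const.mul (hpc.mul (continuous_ee.comp
      ((continuous_const.mul continuous_id).sub (continuous_const.mul continuous_th))))
  rw [intervalIntegral.integral_add (c1.intervalIntegrable _ _) (c2.intervalIntegrable _ _),
    intervalIntegral.integral_const_mul, intervalIntegral.integral_const_mul]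
  refine (norm_add_le _ _).trans ?_
  rw [norm_mul, norm_mul]
  have e2 : ‖(1 / 2 : ℂ)‖ = 1 / 2 := by norm_num
  rw [e2]
  linarith [h1 t, h2 t]

/-- the requirements on the next frequency -/
def Good (l : List ℕ) (δ : ℝ) (m : ℕ) : Prop :=
  l.length ≤ m ∧
  (∀ t : ℝ, ‖∫ x in (1:ℝ)..2, (dens l x : ℂ) * ((Real.cos (m * th x) : ℝ) : ℂ) * ee (t * x)‖ ≤ δ) ∧
  (∀ k ∈ l, ‖∫ x in (1:ℝ)..2, ((dens l x : ℂ) * ee (k * th x)) *
    ((Real.cos (m * th x) : ℝ) : ℂ)‖ ≤ δ) ∧
  ‖∫ x in (1:ℝ)..2, (dens l x : ℂ) * ee (m * th x)‖ ≤ δ ∧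
  ‖∫ x in (1:ℝ)..2, (dens l x : ℂ) * ee (m * th x + m * th x)‖ ≤ δ

lemma exists_good (l : List ℕ) {δ : ℝ} (hδ : 0 < δ) : ∃ m, Good l δ m := by
  have h1 := osc_cos (contDiff_densC l) hδ
  have h2 : ∀ᶠ m : ℕ in atTop, ∀ k ∈ l.toFinset, ‖∫ x in (1:ℝ)..2, ((dens l x : ℂ) * ee (k * th x)) *
    ((Real.cos (m * th x) : ℝ) : ℂ)‖ ≤ δ := by
    refine (Filter.eventually_all_finset l.toFinset).2 fun k _ => ?_
    have hp : ContDiff ℝ 1 fun x => (dens l x : ℂ) * ee (k * th x) :=
      (contDiff_densC l).mul (contDiff_ee (contDiff_const.mul contDiff_th))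
    filter_upwards [osc_cos hp hδ] with m hm
    have := hm 0
    simpa [ee_zero] using this
  have h3 := osc_pos (contDiff_densC l) hδ
  have h4 : ∀ᶠ m : ℕ in atTop, ∀ t : ℝ,
      ‖∫ x in (1:ℝ)..2, (dens l x : ℂ) * ee (t * x + (m + m : ℕ) * th x)‖ ≤ δ := by
    have ht : Tendsto (fun m : ℕ => m + m) atTop atTop :=
      tendsto_atTop_mono (fun m => Nat.le_add_right m m) tendsto_id
    exact ht.eventually h3
  obtain ⟨m, hm⟩ := (h1.and (h2.and (h3.and (h4.and (eventually_ge_atTop l.length))))).exists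
  obtain ⟨a1, a2, a3, a4, a5⟩ := hm
  refine ⟨m, a5, a1, fun k hk => a2 k (List.mem_toFinset.2 hk), ?_, ?_⟩
  · have := a3 0
    simpa using this
  · have := a4 0
    simp only [zero_mul, zero_add] at this
    convert this using 5
    push_cast; ring

/-- the chosen frequency -/
noncomputable def nxt (l : List ℕ) : ℕ :=
  (exists_good l (δ := 1 / 16 * (1 / 2) ^ l.length) (by positivity)).choose

lemma nxt_good (l : List ℕ) : Good l (1 / 16 * (1 / 2) ^ l.length) (nxt l) :=
  (exists_good l (δ := 1 / 16 * (1 / 2) ^ l.length) (by positivity)).choose_spec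

/-- the lists of frequencies -/
noncomputable def LL : ℕ → List ℕ
  | 0 => []
  | n + 1 => nxt (LL n) :: LL n

lemma length_LL (n : ℕ) : (LL n).length = n := by
  induction n with
  | zero => rfl
  | succ n ih => simp [LL, ih]

/-- `δ_n` -/
noncomputable def dl (n : ℕ) : ℝ := 1 / 16 * (1 / 2) ^ n

lemma good_n (n : ℕ) : Good (LL n) (dl n) (nxt (LL n)) := by
  have := nxt_good (LL n)
  rwa [length_LL] at this

/-- the Fourier transform of the Riesz product -/
noncomputable def F (n : ℕ) (t : ℝ) : ℂ := ∫ x in (1:ℝ)..2, (dens (LL n) x : ℂ) * ee (t * x)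

/-- the mass -/
noncomputable def Ms (n : ℕ) : ℝ := ∫ x in (1:ℝ)..2, dens (LL n) x

/-- the Fourier coefficients on the circle -/
noncomputable def G (n : ℕ) (k : ℕ) : ℂ := ∫ x in (1:ℝ)..2, (dens (LL n) x : ℂ) * ee (k * th x)

lemma F_zero_eq (n : ℕ) : F n 0 = Ms n := by
  unfold F Ms
  simp only [zero_mul, ee_zero, mul_one]
  exact intervalIntegral.integral_ofReal

lemma F_succ (n : ℕ) (t : ℝ) : ‖F (n + 1) t - F n t‖ ≤ dl n := by
  have h := (good_n n).2.1 t
  have e : F (n + 1) t - F n t = ∫ x in (1:ℝ)..2, (dens (LL n) x : ℂ) *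
      ((Real.cos (nxt (LL n) * th x) : ℝ) : ℂ) * ee (t * x) := by
    unfold F
    have c1 : ∀ n, Continuous fun x => (dens (LL n) x : ℂ) * ee (t * x) := fun n =>
      (continuous_densC _).mul (continuous_ee.comp (continuous_const.mul continuous_id))
    rw [← intervalIntegral.integral_sub ((c1 _).intervalIntegrable _ _)
      ((c1 _).intervalIntegrable _ _)]
    congr 1
    ext x
    have : dens (LL (n + 1)) x = (1 + Real.cos (nxt (LL n) * th x)) * dens (LL n) x := dens_cons _ _ _
    rw [this]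
    push_cast
    ring
  rw [e]; exact h

lemma G_succ (n k : ℕ) (hk : k ∈ LL n) : ‖G (n + 1) k - G n k‖ ≤ dl n := by
  have h := (good_n n).2.2.1 k hk
  have e : G (n + 1) k - G n k = ∫ x in (1:ℝ)..2, ((dens (LL n) x : ℂ) * ee (k * th x)) *
      ((Real.cos (nxt (LL n) * th x) : ℝ) : ℂ) := by
    unfold G
    have c1 : ∀ n, Continuous fun x => (dens (LL n) x : ℂ) * ee (k * th x) := fun n =>
      (continuous_densC _).mul (continuous_ee.comp (continuous_const.mul continuous_th))
    rw [← intervalIntegral.integral_sub ((c1 _).intervalIntegrable _ _)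
      ((c1 _).intervalIntegrable _ _)]
    congr 1
    ext x
    have : dens (LL (n + 1)) x = (1 + Real.cos (nxt (LL n) * th x)) * dens (LL n) x := dens_cons _ _ _
    rw [this]
    push_cast
    ring
  rw [e]; exact h

lemma G_new (n : ℕ) : ‖G (n + 1) (nxt (LL n)) - (Ms n : ℂ) / 2‖ ≤ 3 / 2 * dl n := by
  have h3 := (good_n n).2.2.2.1
  have h4 := (good_n n).2.2.2.2
  set m := nxt (LL n) with hm
  set I1 : ℂ := ∫ x in (1:ℝ)..2, (dens (LL n) x : ℂ) * ee (m * th x) with hI1
  set I2 : ℂ := ∫ x in (1:ℝ)..2, (dens (LL n) x : ℂ) * ee (m * th x + m * th x) with hI2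
  have cth : Continuous fun x => (m : ℝ) * th x := continuous_const.mul continuous_th
  have e : G (n + 1) m = I1 + (1 / 2 : ℂ) * I2 + (1 / 2 : ℂ) * Ms n := by
    rw [← F_zero_eq]
    unfold G F
    rw [hI1, hI2, ← intervalIntegral.integral_const_mul, ← intervalIntegral.integral_const_mul,
      ← intervalIntegral.integral_add, ← intervalIntegral.integral_add]
    · congr 1
      ext x
      have : dens (LL (n + 1)) x = (1 + Real.cos (m * th x)) * dens (LL n) x := dens_cons _ _ _
      rw [this, zero_mul, ee_zero, ee_add]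
      push_cast
      rw [show (Complex.cos ((m : ℂ) * (th x : ℂ))) = ((Real.cos (m * th x) : ℝ) : ℂ) by push_cast; rfl,
        cos_ee]
      have h5 : ee (m * th x) * ee (-(m * th x)) = 1 := by rw [← ee_add]; simp [ee_zero]
      linear_combination (1 / 2 : ℂ) * (dens (LL n) x : ℂ) * h5
    · exact (((continuous_densC _).mul (continuous_ee.comp cth)).add (continuous_const.mul
        ((continuous_densC _).mul (continuous_ee.comp (cth.add cth))))).intervalIntegrable _ _
    · exact (continuous_const.mul ((continuous_densC _).mul (continuous_ee.comp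
        (continuous_const.mul continuous_id)))).intervalIntegrable _ _
    · exact ((continuous_densC _).mul (continuous_ee.comp cth)).intervalIntegrable _ _
    · exact (continuous_const.mul
        ((continuous_densC _).mul (continuous_ee.comp (cth.add cth)))).intervalIntegrable _ _
  have e2 : G (n + 1) m - (Ms n : ℂ) / 2 = I1 + (1 / 2 : ℂ) * I2 := by rw [e]; ring
  rw [e2]
  refine (norm_add_le _ _).trans ?_
  rw [norm_mul]
  have e3 : ‖(1 / 2 : ℂ)‖ = 1 / 2 := by norm_num
  rw [e3]
  linarith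

lemma dl_pos (n : ℕ) : 0 < dl n := by unfold dl; positivity

lemma sum_dl (n k : ℕ) : ∑ i ∈ Finset.range k, dl (n + i) = 2 * dl n - 2 * dl (n + k) := by
  induction k with
  | zero => simp
  | succ k ih =>
    rw [Finset.sum_range_succ, ih]
    unfold dl
    rw [show n + (k + 1) = (n + k) + 1 by ring, pow_succ]
    ring

lemma F_far (n k : ℕ) (t : ℝ) : ‖F (n + k) t - F n t‖ ≤ 2 * dl n := by
  have : ‖F (n + k) t - F n t‖ ≤ ∑ i ∈ Finset.range k, dl (n + i) := by
    induction k with
    | zero => simp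
    | succ k ih =>
      rw [Finset.sum_range_succ]
      have h := F_succ (n + k) t
      calc ‖F (n + (k + 1)) t - F n t‖
          = ‖(F (n + k) t - F n t) + (F (n + k + 1) t - F (n + k) t)‖ := by
            congr 1; rw [show n + (k + 1) = n + k + 1 by ring]; ring
        _ ≤ _ := (norm_add_le _ _).trans (add_le_add ih h)
  rw [sum_dl] at this
  linarith [dl_pos (n + k)]

lemma G_far (n j k : ℕ) (hk : k ∈ LL n) : ‖G (n + j) k - G n k‖ ≤ 2 * dl n := by
  have hmem : ∀ j, k ∈ LL (n + j) := by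
    intro j
    induction j with
    | zero => exact hk
    | succ j ih => exact List.mem_cons_of_mem _ ih
  have : ‖G (n + j) k - G n k‖ ≤ ∑ i ∈ Finset.range j, dl (n + i) := by
    induction j with
    | zero => simp
    | succ j ih =>
      rw [Finset.sum_range_succ]
      have h := G_succ (n + j) k (hmem j)
      calc ‖G (n + (j + 1)) k - G n k‖
          = ‖(G (n + j) k - G n k) + (G (n + j + 1) k - G (n + j) k)‖ := by
            congr 1; rw [show n + (j + 1) = n + j + 1 by ring]; ring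
        _ ≤ _ := (norm_add_le _ _).trans (add_le_add ih h)
  rw [sum_dl] at this
  linarith [dl_pos (n + j)]

lemma Ms_bound (n : ℕ) : 7 / 8 ≤ Ms n ∧ Ms n ≤ 9 / 8 := by
  have h := F_far 0 n 0
  rw [zero_add, F_zero_eq, F_zero_eq] at h
  have h0 : Ms 0 = 1 := by
    unfold Ms
    have : ∀ x, dens (LL 0) x = 1 := fun x => dens_nil x
    simp_rw [this]
    simp; norm_num
  rw [h0, ← Complex.ofReal_sub, Complex.norm_real, Real.norm_eq_abs, abs_le] at h
  have hd : dl 0 = 1 / 16 := by simp [dl]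
  rw [hd] at h
  constructor <;> linarith [h.1, h.2]

/-- the coefficients at the chosen frequencies do not tend to zero -/
lemma G_lower (n N : ℕ) (hN : n + 1 ≤ N) : 9 / 32 ≤ ‖G N (nxt (LL n))‖ := by
  obtain ⟨j, rfl⟩ := Nat.exists_eq_add_of_le hN
  have h1 := G_far (n + 1) j (nxt (LL n)) (List.mem_cons_self ..)
  have h2 := G_new n
  have h3 := (Ms_bound n).1
  have h4 : dl n ≤ 1 / 16 := by
    unfold dl
    have : (1 / 2 : ℝ) ^ n ≤ 1 := pow_le_one₀ (by norm_num) (by norm_num)
    linarith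
  have h5 : dl (n + 1) = dl n / 2 := by unfold dl; rw [pow_succ]; ring
  have h6 : ‖(Ms n : ℂ) / 2‖ = Ms n / 2 := by
    rw [norm_div, Complex.norm_real, Real.norm_eq_abs, abs_of_nonneg (by linarith)]
    norm_num
  have h7 : ‖(Ms n : ℂ) / 2‖ ≤ ‖G (n + 1 + j) (nxt (LL n))‖ +
      ‖G (n + 1 + j) (nxt (LL n)) - G (n + 1) (nxt (LL n))‖ +
      ‖G (n + 1) (nxt (LL n)) - (Ms n : ℂ) / 2‖ := by
    calc ‖(Ms n : ℂ) / 2‖ = ‖G (n + 1 + j) (nxt (LL n)) -
          (G (n + 1 + j) (nxt (LL n)) - G (n + 1) (nxt (LL n))) -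
          (G (n + 1) (nxt (LL n)) - (Ms n : ℂ) / 2)‖ := by congr 1; ring
      _ ≤ _ := (norm_sub_le _ _).trans (add_le_add (norm_sub_le _ _) le_rfl)
  rw [h6] at h7
  rw [h5] at h1
  linarith

lemma le_nxt (n : ℕ) : n ≤ nxt (LL n) := by
  have := (good_n n).1
  rwa [length_LL] at this

end Pool.Agent.W2helper17.CG
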